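import Pool.Agent.Helper95.RK.GoalsC
import Pool.Agent.Helper95.RK.Basics

/-! Packet RK AFOLK: assembly of the structure of a complete pseudogroup. -/

open Complex Metric Set Filter Topology MeasureTheory
open scoped ContDiff ComplexConjugate ComplexOrder Manifold Matrix

namespace Pool.Agent.Helper90.RK

open Pool.Agent.Helper95.Lin Pool.Agent.Helper16.Abund Pool.Agent.Helper92.Orb
open Pool.Agent.Helper10.SP Pool.Agent.Helper95.RK

universe u v

theorem Bd_mono {b N : ℕ} (c : Fin N → Cn b) {r r' : ℝ} (h : r ≤ r') : Bd c r ⊆ Bd c r' :=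
  iUnion_mono fun _ => ball_subset_ball h

theorem isOpen_Bd {b N : ℕ} (c : Fin N → Cn b) (r : ℝ) : IsOpen (Bd c r) :=
  isOpen_iUnion fun _ => isOpen_ball

theorem HolOn_mono {b k : ℕ} {t : TriK b k} {U U' : Set (Cn b)} (h : t.HolOn U) (hs : U' ⊆ U) :
    t.HolOn U' :=
  ⟨h.1.mono hs, fun i j => (h.2.1 i j).mono hs, h.2.2.mono hs⟩

theorem PMapGK.toPMap {b k : ℕ} {D : Set (Cn b)} {G : Type u} [Group G]
    {R : G → Cn (b + k) → Cn (b + k) → Prop} {γ : G} {U : Set (Cn b)} {t : TriK b k}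
    (h : PMapGK D R γ U t) : PMapK D R U t :=
  ⟨h.1, h.2.1, h.2.2.1, h.2.2.2.1, γ, h.2.2.2.2⟩

theorem PMapK.toPMapG {b k : ℕ} {D : Set (Cn b)} {G : Type u} [Group G]
    {R : G → Cn (b + k) → Cn (b + k) → Prop} {U : Set (Cn b)} {t : TriK b k}
    (h : PMapK D R U t) : ∃ γ, PMapGK D R γ U t := by
  obtain ⟨h1, h2, h3, h4, γ, h5⟩ := h
  exact ⟨γ, h1, h2, h3, h4, h5⟩

theorem PMapK.mono {b k : ℕ} {D : Set (Cn b)} {G : Type u} [Group G]
    {R : G → Cn (b + k) → Cn (b + k) → Prop} {U U' : Set (Cn b)} {t : TriK b k}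
    (h : PMapK D R U t) (hU : IsOpen U') (hs : U' ⊆ U) : PMapK D R U' t := by
  obtain ⟨h1, h2, h3, h6, γ, h7⟩ := h
  exact ⟨hU, hs.trans h2, HolOn_mono h3 hs, fun z hz => h6 z (hs hz), γ,
    fun z hz => h7 z (hs hz)⟩

theorem PMapK.congr {b k : ℕ} {D : Set (Cn b)} {G : Type u} [Group G]
    {R : G → Cn (b + k) → Cn (b + k) → Prop} {U : Set (Cn b)} {t t' : TriK b k}
    (h : PMapK D R U t) (he : t.EqOn t' U) : PMapK D R U t' := by
  obtain ⟨h1, h2, ⟨h3, h4, h5⟩, h6, γ, h7⟩ := h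
  refine ⟨h1, h2, ⟨h3.congr fun z hz => (he z hz).1.symm, fun i j => (h4 i j).congr fun z hz => by
      show t'.A z i j = t.A z i j
      rw [(he z hz).2.1],
    h5.congr fun z hz => (he z hz).2.2.symm⟩, fun z hz => ?_, γ, fun z hz w => ?_⟩
  · rw [← (he z hz).1, ← (he z hz).2.1]
    exact h6 z hz
  · have h8 := h7 z hz w
    unfold TriK.ap at h8 ⊢
    rw [← (he z hz).1, ← (he z hz).2.1, ← (he z hz).2.2]
    exact h8

/-- The map of `t` is holomorphic. -/
theorem map_holo {b k : ℕ} {U : Set (Cn b)} {t : TriK b k} (h : t.HolOn U) :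
    DifferentiableOn ℂ t.map (tubeK k U) := by
  have hb : DifferentiableOn ℂ (fun x : Cn (b + k) => base x) (tubeK k U) :=
    (bsL b k).differentiable.differentiableOn
  have hf : DifferentiableOn ℂ (fun x : Cn (b + k) => fib x) (tubeK k U) :=
    (fbL b k).differentiable.differentiableOn
  have hm : MapsTo (fun x : Cn (b + k) => base x) (tubeK k U) U := fun x hx => hx
  have h1 : DifferentiableOn ℂ (fun x : Cn (b + k) => t.g (base x)) (tubeK k U) :=
    h.1.comp hb hm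
  have h2 : DifferentiableOn ℂ (fun x : Cn (b + k) => t.β (base x)) (tubeK k U) :=
    h.2.2.comp hb hm
  have h3 : DifferentiableOn ℂ (fun x : Cn (b + k) => t.A (base x) *ᵥ fib x) (tubeK k U) := by
    rw [differentiableOn_pi]
    intro i
    have h4 : (fun x : Cn (b + k) => (t.A (base x) *ᵥ fib x) i) =
        fun x => ∑ j, t.A (base x) i j * fib x j := rfl
    rw [h4]
    refine DifferentiableOn.fun_sum fun j _ => ?_
    exact ((h.2.1 i j).comp hb hm).mul (differentiableOn_pi.1 hf j)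
  have h5 : DifferentiableOn ℂ (fun x : Cn (b + k) =>
      (t.g (base x), t.A (base x) *ᵥ fib x + t.β (base x))) (tubeK k U) :=
    h1.prodMk (h3.add h2)
  exact (ptL b k).differentiable.comp_differentiableOn h5

theorem afolk (hL : S_LOCPK.{u, v}) (hP : S_PAXK.{u, v}) (hF : S_FIN1K.{u, v})
    (hK : S_KETG.{u, v}) : S_AFOLK.{u, v} := by
  intro b k N G M _ _ _ _ _ _ _ h q v hb hd hfl c R C E Φ Hf hm hB
  obtain ⟨pA, pB, pC, pD, pE⟩ := hP hd hfl c R E Φ Hf hm
  have hC1 : 1 ≤ C := hB.1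
  have hR8 : 8 + 8 * C ≤ R := hB.2.1
  have hR2 : (2 : ℝ) ≤ R := by linarith
  have h2R : Bd c 2 ⊆ Bd c R := Bd_mono c hR2
  have hloc : ∀ (γ : G) (x y : Cn (b + k)), RelT (G := G) (tubeK k (Bd c 2)) E γ x y →
      RelK c R E γ x y := fun γ x y hxy => ⟨h2R hxy.1, h2R hxy.2.1, hxy.2.2⟩
  -- the étale relations
  have hcomp : ∃ C0 : Set (Cn (b + k)), IsCompact C0 ∧ C0 ⊆ tubeK k (Bd c 2) ∧
      ∀ p : M, ∃ (γ : G), ∃ x ∈ C0, γ • p = E x := by
    refine ⟨ptL b k '' ((⋃ i, closedBall (c i) 1) ×ˢ closedBall (0 : Cn k) 1), ?_, ?_, ?_⟩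
    · exact ((isCompact_iUnion fun i => isCompact_closedBall (c i) 1).prod
        (isCompact_closedBall 0 1)).image (ptL b k).continuous
    · rintro x ⟨⟨z, w⟩, ⟨hz, -⟩, rfl⟩
      obtain ⟨i, hi⟩ := mem_iUnion.1 hz
      change base (ptL b k (z, w)) ∈ Bd c 2
      rw [ptL_apply, base_ptK]
      exact mem_iUnion.2 ⟨i, closedBall_subset_ball (by norm_num) hi⟩
    · intro p
      obtain ⟨γ, z, hz, w, hw, hp⟩ := hm.cov p
      obtain ⟨i, hi⟩ := mem_iUnion.1 hz
      refine ⟨γ, ptK z w, ⟨(z, w), ⟨mem_iUnion.2 ⟨i, ball_subset_closedBall hi⟩, ?_⟩, rfl⟩, hp⟩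
      rw [mem_closedBall, dist_zero_right]
      exact hw.le
  obtain ⟨C0, hC0, hC02, hC0c⟩ := hcomp
  have htub : tubeK k (Bd c 2) ⊆ tubeK k (Bd c R) := fun x hx => h2R hx
  have hpar2 : Par (b + k) E (tubeK k (Bd c 2)) :=
    ⟨⟨isOpen_tubeK (isOpen_Bd c 2), hm.par.1.2.mono htub⟩, fun z hz => hm.par.2 z (htub hz)⟩
  have hket : KEt (tubeK k (Bd c 2)) (RelT (G := G) (tubeK k (Bd c 2)) E) (pm (b + k) h E) :=
    hK hd _ E hpar2 ⟨C0, hC02, hC0, hC0c⟩
  have hketR : KEt (tubeK k (Bd c R)) (RelT (G := G) (tubeK k (Bd c R)) E) (pm (b + k) h E) :=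
    hK hd _ E hm.par ⟨C0, hC02.trans htub, hC0, hC0c⟩
  refine ⟨?_, hket, ?_, ?_, ?_⟩
  · refine
      { posb := hb
        posN := hm.posN
        Rge := hR8
        Cge := hC1
        sep := hm.sep
        smooth := hm.smooth
        pos := hm.pos
        smH := hm.smH
        posH := hm.posH
        holo := ?_
        pot := ?_
        herm := ?_
        one := ?_
        mono := ?_
        congr := ?_
        comp := ?_
        inv := ?_
        ext := hB.2.2.1
        lip := hB.2.2.2.1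
        abd := hB.2.2.2.2.1
        bgr := hB.2.2.2.2.2
        fin := ?_
        coc := ?_
        conn := ?_ }
    · intro U t ht
      exact ⟨ht.1, ht.2.1, ht.2.2.1, ht.2.2.2.1⟩
    · intro U t ht z hz
      obtain ⟨γ, hγ⟩ := PMapK.toPMapG ht
      exact ⟨(pA γ U t hγ z hz).detg, (pA γ U t hγ z hz).pot⟩
    · intro U t ht z hz
      obtain ⟨γ, hγ⟩ := PMapK.toPMapG ht
      exact (pA γ U t hγ z hz).herm
    · intro U hU hUs
      exact PMapGK.toPMap (pB U hU hUs)
    · intro U U' t ht hU' hs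
      exact PMapK.mono ht hU' hs
    · intro U t t' ht he
      exact PMapK.congr ht he
    · intro U U' U'' t s ht hs hU'' hsub hmap
      obtain ⟨γ, hγ⟩ := PMapK.toPMapG ht
      obtain ⟨γ', hγ'⟩ := PMapK.toPMapG hs
      exact PMapGK.toPMap (pC γ γ' U U' U'' t s hγ hγ' hU'' hsub hmap)
    · intro U t ht z hz
      obtain ⟨γ, hγ⟩ := PMapK.toPMapG ht
      obtain ⟨s, U', U'', h1, h2⟩ := pD γ U t hγ z hz
      exact ⟨s, U', U'', PMapGK.toPMap h1, h2⟩
    · intro i r s hs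
      refine hF hd hfl c R E Φ Hf hm (c i) r (2 + 4 * C) 4 (by norm_num) (by linarith) s
        fun n => ?_
      obtain ⟨⟨hk1, z, hz, hgz⟩, hk2⟩ := hs n
      refine ⟨hk1, ?_, hk2⟩
      obtain ⟨j, hj⟩ := mem_iUnion.1 hgz
      have h4 : c i ∈ ball (c i) (4 : ℝ) := mem_ball_self (by norm_num)
      have hz4 : z ∈ ball (c i) (4 : ℝ) := ball_subset_ball (by norm_num) hz
      have hlip := hB.2.2.2.1 i (s n) ⟨hk1, z, hz, hgz⟩ (c i) h4 z hz4
      refine mem_iUnion.2 ⟨j, ?_⟩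
      rw [mem_ball, dist_eq_norm] at hz hj ⊢
      have h5 : ‖c i - z‖ < 2 := by rw [norm_sub_rev]; exact hz
      have h6 : (s n).g (c i) - c j = ((s n).g (c i) - (s n).g z) + ((s n).g z - c j) := by abel
      have h7 : ‖(s n).g (c i) - c j‖ ≤ ‖(s n).g (c i) - (s n).g z‖ + ‖(s n).g z - c j‖ := by
        rw [h6]; exact norm_add_le _ _
      nlinarith
    · intro z hz w
      obtain ⟨γ, z', hz', w', hw', hp⟩ := hm.cov (E (ptK z w))
      have hrel : RelK (G := G) c R E γ (ptK z w) (ptK z' w') := by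
        refine ⟨?_, ?_, hp⟩
        · change base (ptK z w) ∈ Bd c R
          rw [base_ptK]; exact hz
        · change base (ptK z' w') ∈ Bd c R
          rw [base_ptK]; exact Bd_mono c hm.one_lt.le hz'
      obtain ⟨ρ, hρ, t, ht, hy⟩ := hL hd hfl c R E Φ Hf hm γ _ _ hrel
      unfold TriK.map at hy
      rw [base_ptK, fib_ptK] at hy
      rw [base_ptK] at ht
      have e1 : z' = t.g z := by
        have := congrArg base hy
        rwa [base_ptK, base_ptK] at this
      have e2 : w' = t.ap z w := by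
        have := congrArg fib hy
        rwa [fib_ptK, fib_ptK] at this
      exact ⟨ball z ρ, t, PMapGK.toPMap ht, mem_ball_self hρ, e1 ▸ hz', e2 ▸ hw'⟩
    · intro S hS hSo hSc hinv
      have h1 : tubeK k S ⊆ tubeK k (Bd c 2) := fun x hx => hS hx
      have h2 : tubeK k (Bd c 2) \ tubeK k S = tubeK k (Bd c 2 \ S) := rfl
      have h3 := hket.et.conn (tubeK k S) h1 (isOpen_tubeK hSo) (h2 ▸ isOpen_tubeK hSc) ?_
      · rcases h3 with h3 | h3
        · left
          rw [eq_empty_iff_forall_notMem] at h3 ⊢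
          intro z hz
          refine h3 (ptK z 0) ?_
          change base (ptK z 0) ∈ S
          rw [base_ptK]; exact hz
        · right
          refine hS.antisymm fun z hz => ?_
          have : ptK z (0 : Cn k) ∈ tubeK k (Bd c 2) := by
            change base (ptK z 0) ∈ Bd c 2
            rw [base_ptK]; exact hz
          rw [← h3] at this
          change base (ptK z 0) ∈ S at this
          rwa [base_ptK] at this
      · intro γ x y hxy
        obtain ⟨ρ, hρ, t, ht, hy⟩ := hL hd hfl c R E Φ Hf hm γ _ _ (hloc γ x y hxy)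
        have e1 : base y = t.g (base x) := by rw [hy, TriK.map, base_ptK]
        have h4 := hinv (ball (base x) ρ) t (PMapGK.toPMap ht) (base x) (mem_ball_self hρ) hxy.1
          (e1 ▸ hxy.2.1)
        rw [← e1] at h4
        exact h4
  · refine ⟨hketR.posDef, hketR.smooth, hketR.closed, ?_⟩
    intro U t ht x hx u w
    refine hketR.inv (tubeK k U) t.map ⟨isOpen_tubeK ht.1, map_holo ht.2.2.1, ?_⟩ x hx u w
    obtain ⟨γ, hγ⟩ := ht.2.2.2.2
    refine ⟨γ, fun y hy => ?_⟩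
    have := hγ (base y) hy (fib y)
    rw [ptK_base_fib] at this
    exact this
  · intro γ x y hxy
    obtain ⟨ρ, hρ, t, ht, hy⟩ := hL hd hfl c R E Φ Hf hm γ _ _ (hloc γ x y hxy)
    have e1 : base y = t.g (base x) := by rw [hy, TriK.map, base_ptK]
    have hcont : ContinuousOn t.g (ball (base x) ρ) := ht.2.2.1.1.continuousOn
    have hO : IsOpen (ball (base x) ρ ∩ t.g ⁻¹' (Bd c 2)) :=
      hcont.isOpen_inter_preimage isOpen_ball (isOpen_Bd c 2)
    have hO2 : IsOpen ((ball (base x) ρ ∩ t.g ⁻¹' (Bd c 2)) ∩ Bd c 2) := hO.inter (isOpen_Bd c 2)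
    refine ⟨(ball (base x) ρ ∩ t.g ⁻¹' (Bd c 2)) ∩ Bd c 2, t,
      PMapK.mono (PMapGK.toPMap ht) hO2 fun z hz => hz.1.1, ⟨⟨mem_ball_self hρ, ?_⟩, hxy.1⟩,
      fun z hz => hz.2, fun z hz => hz.1.2, hy, fun z hz w => ?_⟩
    · change t.g (base x) ∈ Bd c 2
      rw [← e1]; exact hxy.2.1
    · have h5 := ht.2.2.2.2 z hz.1.1 w
      refine ⟨?_, ?_, h5.2.2⟩
      · change base (ptK z w) ∈ Bd c 2
        rw [base_ptK]; exact hz.2
      · change base (ptK _ _) ∈ Bd c 2
        rw [base_ptK]; exact hz.1.2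
  · intro U t ht hU hmap
    obtain ⟨γ, hγ⟩ := PMapK.toPMapG ht
    refine ⟨γ, fun z hz w => ⟨?_, ?_, (hγ.2.2.2.2 z hz w).2.2⟩⟩
    · change base (ptK z w) ∈ Bd c 2
      rw [base_ptK]; exact hU hz
    · change base (ptK _ _) ∈ Bd c 2
      rw [base_ptK]; exact hmap hz

end Pool.Agent.Helper90.RK
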