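import Pool.Agent.Helper40.RK.GoalsE
import Pool.Agent.Helper95.Lin.Basics
import Pool.Agent.Helper95.RK.Basics
import Pool.Agent.Helper59.SP.CNJ

/-! Packet RK CNJK: conjugation of elements near the identity. -/

open Complex Metric Set Filter Topology MeasureTheory Matrix
open scoped ContDiff ComplexConjugate

namespace Pool.Agent.Helper90.RK

open Pool.Agent.Helper95.Lin Pool.Agent.Helper10.SP Pool.Agent.Helper95.RK Pool.Agent.Helper36.RK
open Pool.Agent.Helper40.RK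

section aux

variable {b k : ℕ}

theorem mul_entry_diff {S : Set (Cn b)} {A B : Cn b → Matrix (Fin k) (Fin k) ℂ}
    (hA : ∀ i j, DifferentiableOn ℂ (fun z => A z i j) S)
    (hB : ∀ i j, DifferentiableOn ℂ (fun z => B z i j) S) (i j : Fin k) :
    DifferentiableOn ℂ (fun z => (A z * B z) i j) S := by
  have h : (fun z => (A z * B z) i j) = fun z => ∑ l, A z i l * B z l j := by
    funext z; rw [Matrix.mul_apply]
  rw [h]
  exact DifferentiableOn.fun_sum fun l _ => (hA i l).mul (hB l j)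

theorem mulVec_diff {S : Set (Cn b)} {A : Cn b → Matrix (Fin k) (Fin k) ℂ} {v : Cn b → Cn k}
    (hA : ∀ i j, DifferentiableOn ℂ (fun z => A z i j) S)
    (hv : DifferentiableOn ℂ v S) : DifferentiableOn ℂ (fun z => A z *ᵥ v z) S := by
  rw [differentiableOn_pi]
  intro i
  have h : (fun z => (A z *ᵥ v z) i) = fun z => ∑ l, A z i l * v z l := rfl
  rw [h]
  exact DifferentiableOn.fun_sum fun l _ => (hA i l).mul (differentiableOn_pi.1 hv l)

theorem cont_mat {S : Set (Cn b)} {A : Cn b → Matrix (Fin k) (Fin k) ℂ}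
    (hA : ∀ i j, DifferentiableOn ℂ (fun z => A z i j) S) : ContinuousOn A S := by
  refine continuousOn_pi.2 fun i => continuousOn_pi.2 fun j => (hA i j).continuousOn

theorem cont_inv {S : Set (Cn b)} {A : Cn b → Matrix (Fin k) (Fin k) ℂ} (hA : ContinuousOn A S)
    (hd : ∀ z ∈ S, (A z).det ≠ 0) : ContinuousOn (fun z => (A z)⁻¹) S := by
  have h1 : ContinuousOn (fun z => (A z).det) S := (continuous_id.matrix_det).comp_continuousOn hA
  have h2 : ContinuousOn (fun z => (A z).adjugate) S :=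
    (continuous_id.matrix_adjugate).comp_continuousOn hA
  have h3 : (fun z => (A z)⁻¹) = fun z => ((A z).det)⁻¹ • (A z).adjugate := by
    funext z
    rw [Matrix.inv_def, Ring.inverse_eq_inv']
  rw [h3]
  exact (h1.inv₀ hd).smul h2

/-- A continuous matrix function is bounded on compact sets. -/
theorem MB_compact {K : Set (Cn b)} (hK : IsCompact K) {A : Cn b → Matrix (Fin k) (Fin k) ℂ}
    (hA : ContinuousOn A K) : ∃ M : ℝ, 1 ≤ M ∧ ∀ z ∈ K, MB (A z) M := by
  have h1 : ContinuousOn (fun z => (fun i j => A z i j : Fin k → Fin k → ℂ)) K := hA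
  obtain ⟨C, hC⟩ := hK.exists_bound_of_continuousOn h1
  refine ⟨max 1 (k * C), le_max_left _ _, fun z hz => ?_⟩
  have h2 : ∀ i j, ‖A z i j‖ ≤ C := fun i j =>
    ((norm_le_pi_norm (A z i) j).trans (norm_le_pi_norm (fun i j => A z i j) i)).trans (hC z hz)
  exact (MB.of_entry h2).mono (le_max_right _ _)

/-- Uniform continuity of matrix functions on compact sets. -/
theorem MB_unif {K : Set (Cn b)} (hK : IsCompact K) {A : Cn b → Matrix (Fin k) (Fin k) ℂ}
    (hA : ContinuousOn A K) {ε : ℝ} (hε : 0 < ε) : ∃ δ > 0, ∀ z ∈ K, ∀ w ∈ K, ‖z - w‖ < δ →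
      MB (A z - A w) ε := by
  have h1 : ContinuousOn (fun z => (fun i j => A z i j : Fin k → Fin k → ℂ)) K := hA
  have h2 := hK.uniformContinuousOn_of_continuous h1
  rw [Metric.uniformContinuousOn_iff] at h2
  obtain ⟨δ, hδ, hδ'⟩ := h2 (ε / (k + 1)) (by positivity)
  refine ⟨δ, hδ, fun z hz w hw hzw => ?_⟩
  have h3 := hδ' z hz w hw (by rw [dist_eq_norm]; exact hzw)
  rw [dist_eq_norm] at h3
  have h4 : ∀ i j, ‖(A z - A w) i j‖ ≤ ε / (k + 1) := fun i j =>
    ((norm_le_pi_norm ((A z - A w) i) j).trans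
      (norm_le_pi_norm (fun i j => (A z - A w) i j) i)).trans h3.le
  refine (MB.of_entry h4).mono ?_
  rw [mul_div_assoc', div_le_iff₀ (by positivity)]
  nlinarith [hε.le]

theorem eqOn_ball {x : Cn b} {e : ℝ} (he : 0 < e) {t s : TriK b k} (ht : t.HolOn (ball x e))
    (hs : s.HolOn (ball x e)) (h : ∀ᶠ z in 𝓝 x, t.g z = s.g z ∧ t.A z = s.A z ∧ t.β z = s.β z) :
    t.EqOn s (ball x e) := by
  have hx : x ∈ ball x e := mem_ball_self he
  intro z hz
  refine ⟨?_, ?_, ?_⟩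
  · exact Pool.Agent.Helper59.SP.idt ht.1 hs.1 hx (h.mono fun z hz => hz.1) hz
  · ext i j
    exact Pool.Agent.Helper59.SP.idt (ht.2.1 i j) (hs.2.1 i j) hx
      (h.mono fun z hz => by
        show t.A z i j = s.A z i j
        rw [hz.2.1]) hz
  · exact Pool.Agent.Helper59.SP.idt ht.2.2 hs.2.2 hx (h.mono fun z hz => hz.2.2) hz

theorem comp_holOn {S U : Set (Cn b)} {t s : TriK b k} (ht : t.HolOn U) (hs : s.HolOn S)
    (hm : MapsTo s.g S U) : (t.comp s).HolOn S := by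
  have hA : ∀ i j, DifferentiableOn ℂ (fun z => t.A (s.g z) i j) S := fun i j =>
    (ht.2.1 i j).comp hs.1 hm
  refine ⟨ht.1.comp hs.1 hm, fun i j => mul_entry_diff hA hs.2.1 i j, ?_⟩
  exact (mulVec_diff hA hs.2.2).add (ht.2.2.comp hs.1 hm)

theorem holOn_mono' {S U : Set (Cn b)} {t : TriK b k} (ht : t.HolOn U) (h : S ⊆ U) : t.HolOn S :=
  ⟨ht.1.mono h, fun i j => (ht.2.1 i j).mono h, ht.2.2.mono h⟩

end aux

theorem cnjk (hNCV : S_NCVK) : S_CNJK := by
  intro b k N c R P Φ Hf C hF i j U s hs x hxU hx hy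
  obtain ⟨hUo, hUR, hsH, hsne⟩ := hF.holo U s hs
  have hsg := hsH.1
  obtain ⟨r, U', U'', hk, hyU', hU''o, hxU'', hU''U, hmaps, hks⟩ := hF.inv U s hs x hxU
  obtain ⟨hU'o, -, hkH, hkne⟩ := hF.holo U' r hk
  have hkg := hkH.1
  have hsc : ContinuousAt s.g x := (hsg.differentiableAt (hUo.mem_nhds hxU)).continuousAt
  have hkc : ContinuousAt r.g (s.g x) := (hkg.differentiableAt (hU'o.mem_nhds hyU')).continuousAt
  have hks' : ∀ z ∈ U'', r.g (s.g z) = z ∧ r.A (s.g z) * s.A z = 1 ∧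
      r.A (s.g z) *ᵥ s.β z + r.β (s.g z) = 0 := fun z hz => hks z hz
  have hkx : r.g (s.g x) = x := (hks' x hxU'').1
  -- the other inverse
  have hsk : ∀ᶠ w in 𝓝 (s.g x), s.g (r.g w) = w := by
    have hcd : ContDiffAt ℂ 1 s.g x :=
      ((holo_contDiffOn hUo hsg).contDiffAt (hUo.mem_nhds hxU)).of_le (by simp)
    have hstr : HasStrictFDerivAt s.g (fderiv ℂ s.g x) x := hcd.hasStrictFDerivAt one_ne_zero
    have hdet : (fderiv ℂ s.g x).det ≠ 0 := (hF.pot U s hs x hxU).1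
    obtain ⟨f', hf'⟩ : ∃ f' : Cn b ≃L[ℂ] Cn b, (f' : Cn b →L[ℂ] Cn b) = fderiv ℂ s.g x :=
      ⟨(fderiv ℂ s.g x).toContinuousLinearEquivOfDetNeZero hdet, by ext x; simp⟩
    rw [← hf'] at hstr
    have hm := hstr.map_nhds_eq_of_equiv
    rw [← hm, eventually_map]
    filter_upwards [hU''o.mem_nhds hxU''] with z hz
    rw [(hks' z hz).1]
  -- the radius `e`
  have hx3 : x ∈ ball (c i) 3 := ball_subset_ball (by norm_num) hx
  obtain ⟨d, hd, hds⟩ := Metric.mem_nhds_iff.1 (inter_mem (inter_mem (hUo.mem_nhds hxU)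
    (isOpen_ball.mem_nhds hx3)) (hsc.preimage_mem_nhds (isOpen_ball.mem_nhds hy)))
  set e : ℝ := d / 3 with he
  have he0 : 0 < e := by positivity
  have hcb : closedBall x (2 * e) ⊆ ball x d := closedBall_subset_ball (by rw [he]; linarith)
  have hbe : ball x e ⊆ closedBall x (2 * e) :=
    (ball_subset_closedBall).trans (closedBall_subset_closedBall (by linarith))
  have hK : IsCompact (closedBall x (2 * e)) := isCompact_closedBall x (2 * e)
  have hKU : closedBall x (2 * e) ⊆ U := fun z hz => (hds (hcb hz)).1.1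
  have hK3 : closedBall x (2 * e) ⊆ ball (c i) 3 := fun z hz => (hds (hcb hz)).1.2
  have hKs : ∀ z ∈ closedBall x (2 * e), s.g z ∈ ball (c j) 2 := fun z hz => (hds (hcb hz)).2
  have hy4 : s.g x ∈ ball (c j) 4 := ball_subset_ball (by norm_num) hy
  -- the radius `ρ₀`
  have h1 : r.g ⁻¹' ball x e ∈ 𝓝 (s.g x) :=
    hkc.preimage_mem_nhds (isOpen_ball.mem_nhds (by rw [hkx]; exact mem_ball_self he0))
  obtain ⟨ρ₀, hρ₀, hρs⟩ := Metric.mem_nhds_iff.1 (inter_mem (inter_mem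
    (isOpen_ball.mem_nhds hy4) h1) hsk)
  refine ⟨e, he0, fun z hz => hKU (hbe hz), fun z hz => hK3 (hbe hz),
    fun z hz => ball_subset_ball (by norm_num) (hKs z (hbe hz)), fun ε hε => ?_⟩
  obtain ⟨η₁, hη₁, hη₁'⟩ := hNCV c R P Φ Hf C hF j (s.g x) ρ₀ hρ₀ (fun w hw => (hρs hw).1.1) 3
    (by norm_num) ε hε
  -- uniform continuity
  have hgc : ContinuousOn s.g (closedBall x (2 * e)) := (hsg.mono hKU).continuousOn
  have hAc : ContinuousOn s.A (closedBall x (2 * e)) :=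
    cont_mat fun i' j' => (hsH.2.1 i' j').mono hKU
  have hAi : ContinuousOn (fun z => (s.A z)⁻¹) (closedBall x (2 * e)) :=
    cont_inv hAc fun z hz => (hsne z (hKU hz)).2
  have hgu := hK.uniformContinuousOn_of_continuous hgc
  obtain ⟨M₁, hM₁, hM₁'⟩ := MB_compact hK hAc
  obtain ⟨M₂, hM₂, hM₂'⟩ := MB_compact hK hAi
  rw [Metric.uniformContinuousOn_iff] at hgu
  obtain ⟨δ₁, hδ₁, hδ₁'⟩ := hgu η₁ hη₁
  obtain ⟨δ₂, hδ₂, hδ₂'⟩ := MB_unif hK hAc (ε := η₁ / (4 * M₂)) (by positivity)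
  obtain ⟨η, hη0, hη1, hη2, hη3, hη4, hη5⟩ : ∃ η : ℝ, 0 < η ∧ η < e ∧ η < δ₁ ∧ η < δ₂ ∧ η ≤ 1 ∧
      η ≤ η₁ / (2 * (M₁ * M₂)) := by
    refine ⟨min (min (e / 2) (δ₁ / 2)) (min (δ₂ / 2) (min 1 (η₁ / (2 * (M₁ * M₂))))),
      ?_, ?_, ?_, ?_, ?_, ?_⟩
    · positivity
    · exact ((min_le_left _ _).trans (min_le_left _ _)).trans_lt (by linarith)
    · exact ((min_le_left _ _).trans (min_le_right _ _)).trans_lt (by linarith)
    · exact ((min_le_right _ _).trans (min_le_left _ _)).trans_lt (by linarith)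
    · exact ((min_le_right _ _).trans (min_le_right _ _)).trans (min_le_left _ _)
    · exact ((min_le_right _ _).trans (min_le_right _ _)).trans (min_le_right _ _)
  refine ⟨η, hη0, fun t ht => ?_⟩
  obtain ⟨htB, htn⟩ := ht
  obtain ⟨-, -, htH, htne⟩ := hF.holo _ t htB.1
  have hmv : ∀ z ∈ ball x e, t.g z ∈ closedBall x (2 * e) := by
    intro z hz
    have h2 := (htn z (hK3 (hbe hz))).1
    rw [mem_closedBall_iff_norm]
    rw [mem_ball_iff_norm] at hz
    calc ‖t.g z - x‖ = ‖(t.g z - z) + (z - x)‖ := by congr 1; abel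
      _ ≤ ‖t.g z - z‖ + ‖z - x‖ := norm_add_le _ _
      _ ≤ 2 * e := by linarith
  have hmU : MapsTo t.g (ball x e) U := fun z hz => hKU (hmv z hz)
  refine ⟨hmU, ?_⟩
  have hxe : x ∈ ball x e := mem_ball_self he0
  have h3to4 : ball (c i) 3 ⊆ ball (c i) 4 := ball_subset_ball (by norm_num)
  -- `t ∘ r`
  have hV1 : IsOpen (U' ∩ r.g ⁻¹' ball x e) :=
    hkg.continuousOn.isOpen_inter_preimage hU'o isOpen_ball
  have hP1 : P (U' ∩ r.g ⁻¹' ball x e) (t.comp r) :=
    hF.comp (ball (c i) 4) U' _ t r htB.1 hk hV1 inter_subset_left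
      fun z hz => h3to4 (hK3 (hbe hz.2))
  have hP2 : P (U' ∩ r.g ⁻¹' ball x e) (s.comp (t.comp r)) :=
    hF.comp U _ _ s (t.comp r) hs hP1 hV1 subset_rfl fun z hz => hmU hz.2
  have hyV : s.g x ∈ U' ∩ r.g ⁻¹' ball x e := ⟨hyU', by rw [mem_preimage, hkx]; exact hxe⟩
  have hval : (s.comp (t.comp r)).g (s.g x) = s.g (t.g x) := by
    change s.g (t.g (r.g (s.g x))) = _
    rw [hkx]
  have hB : (s.comp (t.comp r)).g (s.g x) ∈ Bd c 2 := by
    rw [hval]
    exact mem_iUnion.2 ⟨j, hKs _ (hmv x hxe)⟩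
  obtain ⟨T, U3, hPT, hU3o, hyU3, hU3s, hE⟩ := hF.ext j (s.g x) hy _ _ hP2 hyV hB
  obtain ⟨-, -, hTH, -⟩ := hF.holo _ T hPT
  have hTB : BigK c P j T := by
    refine ⟨hPT, s.g x, hy, ?_⟩
    rw [(hE _ hyU3).1]
    exact hB
  -- near `x`
  have hnear : ∀ᶠ z in 𝓝 x, (T.comp s).g z = (s.comp t).g z ∧ (T.comp s).A z = (s.comp t).A z ∧
      (T.comp s).β z = (s.comp t).β z := by
    filter_upwards [hsc.eventually_mem (hU3o.mem_nhds hyU3), hU''o.mem_nhds hxU''] with z hz1 hz2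
    obtain ⟨q1, q2, q3⟩ := hE _ hz1
    obtain ⟨r1, r2, r3⟩ := hks' z hz2
    have p1 : (s.comp (t.comp r)).g (s.g z) = s.g (t.g z) := by
      change s.g (t.g (r.g (s.g z))) = _
      rw [r1]
    have p2 : (s.comp (t.comp r)).A (s.g z) = s.A (t.g z) * (t.A z * r.A (s.g z)) := by
      change s.A (t.g (r.g (s.g z))) * (t.A (r.g (s.g z)) * r.A (s.g z)) = _
      rw [r1]
    have p3 : (s.comp (t.comp r)).β (s.g z) =
        s.A (t.g z) *ᵥ (t.A z *ᵥ r.β (s.g z) + t.β z) + s.β (t.g z) := by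
      change s.A (t.g (r.g (s.g z))) *ᵥ (t.A (r.g (s.g z)) *ᵥ r.β (s.g z) + t.β (r.g (s.g z))) +
        s.β (t.g (r.g (s.g z))) = _
      rw [r1]
    refine ⟨?_, ?_, ?_⟩
    · change T.g (s.g z) = s.g (t.g z)
      rw [q1, p1]
    · change T.A (s.g z) * s.A z = s.A (t.g z) * t.A z
      rw [q2, p2, mul_assoc, mul_assoc, r2, mul_one]
    · change T.A (s.g z) *ᵥ s.β z + T.β (s.g z) = s.A (t.g z) *ᵥ t.β z + s.β (t.g z)
      rw [q2, q3, p2, p3]
      have r4 : r.β (s.g z) = - (r.A (s.g z) *ᵥ s.β z) := by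
        rw [eq_neg_iff_add_eq_zero, add_comm]; exact r3
      rw [r4, Matrix.mulVec_neg, Matrix.mulVec_add, Matrix.mulVec_neg, ← Matrix.mulVec_mulVec,
        ← Matrix.mulVec_mulVec]
      abel
  -- on the ball
  have hsb4 : MapsTo s.g (ball x e) (ball (c j) 4) := fun z hz =>
    ball_subset_ball (by norm_num) (hKs z (hbe hz))
  have hb4 : ball x e ⊆ ball (c i) 4 := fun z hz => h3to4 (hK3 (hbe hz))
  have hbU : ball x e ⊆ U := fun z hz => hKU (hbe hz)
  have hEq : (T.comp s).EqOn (s.comp t) (ball x e) :=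
    eqOn_ball he0 (comp_holOn hTH (holOn_mono' hsH hbU) hsb4)
      (comp_holOn hsH (holOn_mono' htH hb4) hmU) hnear
  refine ⟨T, ⟨hTB, ?_⟩, hEq⟩
  refine hη₁' T hTB fun w hw => ?_
  have hze : r.g w ∈ ball x e := (hρs hw).1.2
  have hsw : s.g (r.g w) = w := (hρs hw).2
  set z := r.g w with hz
  obtain ⟨E1, E2, -⟩ := hEq z hze
  have E1' : T.g w = s.g (t.g z) := by
    rw [← hsw]
    exact E1
  have E2' : T.A w * s.A z = s.A (t.g z) * t.A z := by
    rw [← hsw]
    exact E2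
  have hz2 : z ∈ closedBall x (2 * e) := hbe hze
  have htz := htn z (hK3 hz2)
  constructor
  · rw [E1']
    have h4 := hδ₁' _ (hmv z hze) _ hz2 (by rw [dist_eq_norm]; linarith [htz.1])
    rw [dist_eq_norm, hsw] at h4
    exact h4.le
  · have h4 := hδ₂' _ (hmv z hze) _ hz2 (by linarith [htz.1])
    have hu : IsUnit (s.A z).det := (hsne z (hKU hz2)).2.isUnit
    have h5 : T.A w - 1 = ((s.A (t.g z) - s.A z) * t.A z + s.A z * (t.A z - 1)) * (s.A z)⁻¹ := by
      have h6 : (s.A (t.g z) - s.A z) * t.A z + s.A z * (t.A z - 1) = (T.A w - 1) * s.A z := by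
        rw [sub_mul, sub_mul, one_mul, mul_sub, mul_one, E2']
        abel
      rw [h6, Matrix.mul_assoc, Matrix.mul_nonsing_inv _ hu, mul_one]
    have htA : MB (t.A z) 2 := by
      have h7 := MB.add htz.2 (MB.one (k := k))
      rw [sub_add_cancel] at h7
      exact h7.mono (by linarith)
    have h8 : MB ((s.A (t.g z) - s.A z) * t.A z) (η₁ / (4 * M₂) * 2) :=
      MB.mul (by positivity) h4 htA
    have h9 : MB (s.A z * (t.A z - 1)) (M₁ * η) := MB.mul (by linarith) (hM₁' z hz2) htz.2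
    have h10 := MB.mul (by positivity) (h8.add h9) (hM₂' z hz2)
    rw [← h5] at h10
    refine h10.mono ?_
    have hM₁0 : 0 < M₁ := by linarith
    have hM₂0 : 0 < M₂ := by linarith
    have h11 : η * (2 * (M₁ * M₂)) ≤ η₁ := by
      rw [le_div_iff₀ (by positivity)] at hη5
      exact hη5
    have h12 : η₁ / (4 * M₂) * 2 * M₂ = η₁ / 2 := by
      field_simp
      norm_num
    nlinarith

end Pool.Agent.Helper90.RK
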