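import Pool.Agent.Helper40.RK.GoalsE
import Pool.Agent.Helper95.RK.Basics

/-! Packet RK LTRK: transformation of the limits. -/

open Complex Metric Set Filter Topology MeasureTheory Matrix
open scoped ContDiff ComplexConjugate

namespace Pool.Agent.Helper90.RK

open Pool.Agent.Helper95.Lin Pool.Agent.Helper10.SP Pool.Agent.Helper95.RK Pool.Agent.Helper36.RK
open Pool.Agent.Helper40.RK

theorem NrK.mono {b k N : ℕ} {c : Fin N → Cn b} {P : Set (Cn b) → TriK b k → Prop} {i : Fin N}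
    {ρ ε ε' : ℝ} {t : TriK b k} (h : NrK c P i ρ ε t) (hε : ε ≤ ε') : NrK c P i ρ ε' t :=
  ⟨h.1, fun z hz => ⟨(h.2 z hz).1.trans hε, (h.2 z hz).2.mono hε⟩⟩

theorem MB_exists {k : ℕ} (A : Matrix (Fin k) (Fin k) ℂ) : ∃ C : ℝ, 0 ≤ C ∧ MB A C := by
  refine ⟨k * ‖(fun i j => A i j : Fin k → Fin k → ℂ)‖, by positivity, MB.of_entry fun i j => ?_⟩
  exact (norm_le_pi_norm (A i) j).trans (norm_le_pi_norm (fun i j => A i j) i)

/-- `f n = n l + o(n)`. -/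
def GoodK {k : ℕ} (f : ℕ → Cn k) (l : Cn k) : Prop :=
  ∀ ε > 0, ∃ B : ℝ, ∀ n : ℕ, ‖f n - (n : ℂ) • l‖ ≤ ε * n + B

theorem GoodK.tendsto {k : ℕ} {f : ℕ → Cn k} {l : Cn k} (h : GoodK f l) :
    Tendsto (fun n : ℕ => ((n : ℂ))⁻¹ • f n) atTop (𝓝 l) := by
  rw [Metric.tendsto_atTop]
  intro ε hε
  obtain ⟨B, hB⟩ := h (ε / 2) (by positivity)
  obtain ⟨n₀, hn₀⟩ := exists_nat_gt (2 * B / ε)
  refine ⟨n₀ + 1, fun n hn => ?_⟩
  have h1 : (n₀ : ℝ) + 1 ≤ n := by exact_mod_cast hn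
  have h0 : (0 : ℝ) < n := by
    have : (0 : ℝ) ≤ n₀ := Nat.cast_nonneg _
    linarith
  have hn0 : (n : ℂ) ≠ 0 := by
    have : (n : ℝ) ≠ 0 := h0.ne'
    exact_mod_cast this
  have h2 : ((n : ℂ))⁻¹ • f n - l = ((n : ℂ))⁻¹ • (f n - (n : ℂ) • l) := by
    rw [smul_sub, smul_smul, inv_mul_cancel₀ hn0, one_smul]
  rw [dist_eq_norm, h2, norm_smul, norm_inv, Complex.norm_natCast, inv_mul_lt_iff₀ h0]
  have h3 := hB n
  have h4 : 2 * B < ε * n := by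
    rw [div_lt_iff₀ hε] at hn₀
    nlinarith
  linarith

theorem norm_nsm {k : ℕ} (n : ℕ) (v : Cn k) : ‖(n : ℂ) • v‖ = n * ‖v‖ := by
  rw [norm_smul, Complex.norm_natCast]

theorem ltrk (hR : S_RETNK) (hC : S_CNJK) : S_LTRK := by
  intro b k N c R P Φ Hf C hF Λ ε₀ K hε₀ hK hadd hsm _ hbd hlast i j U s hs x hxU hx hy
  have hC1 : 1 ≤ C := hF.Cge
  obtain ⟨e, he, heU, hei, hej, hcn⟩ := hC c R P Φ Hf C hF i j U s hs x hxU hx hy
  obtain ⟨η, hη, hcn⟩ := hcn ε₀ hε₀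
  have hsub : ball x (e / 3) ⊆ ball x e := ball_subset_ball (by linarith)
  refine ⟨e / 3, by positivity, hsub.trans heU, hej.mono_left hsub, fun w => ?_⟩
  obtain ⟨hUo, -, ⟨-, -, hsβ⟩, hsa⟩ := hF.holo U s hs
  obtain ⟨B, hB⟩ := hR c R P Φ Hf C hF i (min η (min ε₀ (e / 3))) (by positivity)
  choose t ht hq using fun n : ℕ => hB ((n : ℂ) • w)
  choose T hT hE using fun n : ℕ => (hcn (t n) (NrK.mono (ht n) (min_le_left _ _))).2
  have hB0 : 0 ≤ B := (norm_nonneg _).trans (hq 0)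
  -- elementary facts on `Λ`
  have hsub' : ∀ l w w', ∀ y ∈ ball (c l) 3, Λ l (w - w') y = Λ l w y - Λ l w' y := by
    intro l w w' y hy
    have h1 := hadd l (w - w') w' y hy
    rw [sub_add_cancel] at h1
    rw [h1, add_sub_cancel_right]
  have hnat : ∀ l (n : ℕ) w, ∀ y ∈ ball (c l) 3, Λ l ((n : ℂ) • w) y = (n : ℂ) • Λ l w y := by
    intro l n w y hy
    have h1 := hsm l (n : ℝ) w y hy
    rw [Complex.ofReal_natCast] at h1
    exact h1
  -- bound for `s.β`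
  obtain ⟨M, hM⟩ : ∃ M : ℝ, ∀ z ∈ closedBall x (2 * e / 3), ‖s.β z‖ ≤ M := by
    refine (isCompact_closedBall x (2 * e / 3)).exists_bound_of_continuousOn
      (hsβ.continuousOn.mono fun z hz => heU ?_)
    rw [mem_closedBall] at hz
    rw [mem_ball]
    linarith
  have hM0 : 0 ≤ M := (norm_nonneg _).trans (hM x (mem_closedBall_self (by positivity)))
  -- the limits for `t`
  have hG1 : ∀ z ∈ ball (c i) 3, GoodK (fun n => (t n).q z) (Λ i w z) := by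
    intro z hz ε hε
    obtain ⟨B1, hB1⟩ := hlast i (ε / (‖w‖ + 1)) (by positivity)
    refine ⟨ε / (‖w‖ + 1) * B + B1 + K * B, fun n => ?_⟩
    have h1 := hB1 (t n) (NrK.mono (ht n) ((min_le_right _ _).trans (min_le_left _ _))) z hz
    have h2 := hq n
    have h3 : ‖(t n).q (c i)‖ ≤ n * ‖w‖ + B := by
      have h4 : ‖(t n).q (c i)‖ ≤ ‖(t n).q (c i) - (n : ℂ) • w‖ + ‖(n : ℂ) • w‖ := by
        simpa using norm_add_le ((t n).q (c i) - (n : ℂ) • w) ((n : ℂ) • w)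
      rw [norm_nsm] at h4
      linarith
    have h4 : ‖Λ i ((t n).q (c i)) z - (n : ℂ) • Λ i w z‖ ≤ K * B := by
      rw [← hnat i n w z hz, ← hsub' i _ _ z hz]
      exact ((hbd i _ z hz).2).trans (by gcongr)
    have h5 : ‖(t n).q z - (n : ℂ) • Λ i w z‖ ≤ ‖(t n).q z - Λ i ((t n).q (c i)) z‖ +
        ‖Λ i ((t n).q (c i)) z - (n : ℂ) • Λ i w z‖ := by
      simpa using norm_add_le ((t n).q z - Λ i ((t n).q (c i)) z)
        (Λ i ((t n).q (c i)) z - (n : ℂ) • Λ i w z)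
    have h6 : ε / (‖w‖ + 1) * ‖(t n).q (c i)‖ ≤ ε / (‖w‖ + 1) * (n * ‖w‖ + B) := by gcongr
    have h7 : ε / (‖w‖ + 1) * (n * ‖w‖) ≤ ε * n := by
      rw [div_mul_eq_mul_div, div_le_iff₀ (by positivity)]
      have : (0 : ℝ) ≤ n := Nat.cast_nonneg _
      nlinarith [norm_nonneg w, mul_nonneg hε.le this]
    change ‖(t n).q z - (n : ℂ) • Λ i w z‖ ≤ _
    nlinarith
  -- the formula for `T`
  have hform : ∀ z ∈ ball x (e / 3), ∀ n, (T n).q (s.g z) = s.A z *ᵥ (t n).q z +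
      (((T n).A (s.g z))⁻¹ *ᵥ s.β ((t n).g z) - s.β z) := by
    intro z hz n
    have hz' := hsub hz
    obtain ⟨-, h1, h2⟩ := hE n z hz'
    have h3 : IsUnit ((T n).A (s.g z)).det := ((hF.holo _ _ (hT n).1.1).2.2.2 (s.g z)
      (ball_subset_ball (by norm_num) (hej hz'))).2.isUnit
    have h4 : IsUnit ((t n).A z).det := ((hF.holo _ _ (ht n).1.1).2.2.2 z
      (ball_subset_ball (by norm_num) (hei hz'))).2.isUnit
    change (T n).A (s.g z) * s.A z = s.A ((t n).g z) * (t n).A z at h1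
    change (T n).A (s.g z) *ᵥ s.β z + (T n).β (s.g z) =
      s.A ((t n).g z) *ᵥ (t n).β z + s.β ((t n).g z) at h2
    have h5 : (T n).β (s.g z) = s.A ((t n).g z) *ᵥ (t n).β z + s.β ((t n).g z) -
        (T n).A (s.g z) *ᵥ s.β z := by rw [← h2]; abel
    have h6 : ((T n).A (s.g z))⁻¹ *ᵥ (s.A ((t n).g z) *ᵥ (t n).β z) =
        s.A z *ᵥ (((t n).A z)⁻¹ *ᵥ (t n).β z) := by
      have h7 : s.A z * ((t n).A z)⁻¹ = ((T n).A (s.g z))⁻¹ * s.A ((t n).g z) := by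
        have h8 : s.A ((t n).g z) = (T n).A (s.g z) * s.A z * ((t n).A z)⁻¹ := by
          rw [h1, Matrix.mul_assoc, Matrix.mul_nonsing_inv _ h4, Matrix.mul_one]
        rw [h8, ← Matrix.mul_assoc, ← Matrix.mul_assoc, Matrix.nonsing_inv_mul _ h3,
          Matrix.one_mul]
      rw [Matrix.mulVec_mulVec, Matrix.mulVec_mulVec, h7]
    unfold TriK.q
    have h9 : ((T n).A (s.g z))⁻¹ *ᵥ ((T n).A (s.g z) *ᵥ s.β z) = s.β z := by
      rw [Matrix.mulVec_mulVec, Matrix.nonsing_inv_mul _ h3, Matrix.one_mulVec]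
    rw [h5, Matrix.mulVec_sub, Matrix.mulVec_add, h6, h9]
    abel
  have hG2 : ∀ z ∈ ball x (e / 3), GoodK (fun n => (T n).q (s.g z)) (s.A z *ᵥ Λ i w z) := by
    intro z hz ε hε
    have hz' := hsub hz
    obtain ⟨D, hD0, hD⟩ := MB_exists (s.A z)
    obtain ⟨B1, hB1⟩ := hG1 z (hei hz') (ε / (D + 1)) (by positivity)
    refine ⟨D * B1 + (C * M + M), fun n => ?_⟩
    have h1 := hB1 n
    change ‖(t n).q z - (n : ℂ) • Λ i w z‖ ≤ _ at h1
    have h2 : ‖s.β ((t n).g z)‖ ≤ M := by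
      apply hM
      have h3 := ((ht n).2 z (hei hz')).1
      have h4 := h3.trans ((min_le_right _ _).trans (min_le_right _ _))
      rw [mem_ball, dist_eq_norm] at hz
      rw [mem_closedBall, dist_eq_norm]
      have h5 : ‖(t n).g z - x‖ ≤ ‖(t n).g z - z‖ + ‖z - x‖ := by
        simpa using norm_add_le ((t n).g z - z) (z - x)
      linarith
    have h3 : ‖s.β z‖ ≤ M := hM z (by
      rw [mem_ball] at hz
      rw [mem_closedBall]
      linarith)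
    have h5 : ‖((T n).A (s.g z))⁻¹ *ᵥ s.β ((t n).g z)‖ ≤ C * M := by
      refine ((hF.abd j (T n) (hT n).1 (s.g z)
        (ball_subset_ball (by norm_num) (hej hz'))).2 _).trans ?_
      gcongr
    have h6 : ‖(T n).q (s.g z) - (n : ℂ) • (s.A z *ᵥ Λ i w z)‖ ≤
        D * ‖(t n).q z - (n : ℂ) • Λ i w z‖ +
        (‖((T n).A (s.g z))⁻¹ *ᵥ s.β ((t n).g z)‖ + ‖s.β z‖) := by
      have h7 : (T n).q (s.g z) - (n : ℂ) • (s.A z *ᵥ Λ i w z) =
          s.A z *ᵥ ((t n).q z - (n : ℂ) • Λ i w z) +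
          (((T n).A (s.g z))⁻¹ *ᵥ s.β ((t n).g z) - s.β z) := by
        rw [hform z hz n, Matrix.mulVec_sub, Matrix.mulVec_smul]
        abel
      rw [h7]
      exact (norm_add_le _ _).trans (add_le_add (hD _) (norm_sub_le _ _))
    have h7 : D * (ε / (D + 1) * n) ≤ ε * n := by
      have h8 : D * (ε / (D + 1)) ≤ ε := by
        rw [mul_div_assoc', div_le_iff₀ (by positivity)]
        nlinarith
      rw [← mul_assoc]
      gcongr
    have h8 : D * ‖(t n).q z - (n : ℂ) • Λ i w z‖ ≤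
        D * (ε / (D + 1) * n + B1) := by gcongr
    change ‖(T n).q (s.g z) - (n : ℂ) • (s.A z *ᵥ Λ i w z)‖ ≤ _
    nlinarith
  -- the values at the centre
  have hTN : ∀ n, NrK c P j 3 ε₀ (T n) := hT
  have hxe : x ∈ ball x (e / 3) := mem_ball_self (by positivity)
  obtain ⟨M', hM'0, hM'⟩ : ∃ M' : ℝ, 0 ≤ M' ∧ ∀ n : ℕ, ‖(T n).q (c j)‖ ≤ M' * n + M' := by
    obtain ⟨B1, hB1⟩ := hlast j (1 / (2 * K)) (by positivity)
    obtain ⟨B2, hB2⟩ := hG2 x hxe 1 one_pos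
    set l := s.A x *ᵥ Λ i w x
    refine ⟨2 * K * (‖l‖ + 1 + |B2| + |B1|), by positivity, fun n => ?_⟩
    have hy3 : s.g x ∈ ball (c j) 3 := hej (hsub hxe)
    have h1 := hB1 (T n) (hTN n) (s.g x) hy3
    have h2 := hB2 n
    change ‖(T n).q (s.g x) - (n : ℂ) • l‖ ≤ _ at h2
    have h3 := (hbd j ((T n).q (c j)) (s.g x) hy3).1
    have h4 : ‖Λ j ((T n).q (c j)) (s.g x)‖ ≤ ‖(T n).q (s.g x) - (n : ℂ) • l‖ + n * ‖l‖ +
        ‖(T n).q (s.g x) - Λ j ((T n).q (c j)) (s.g x)‖ := by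
      have h5 : Λ j ((T n).q (c j)) (s.g x) = ((T n).q (s.g x) - (n : ℂ) • l) + (n : ℂ) • l -
        ((T n).q (s.g x) - Λ j ((T n).q (c j)) (s.g x)) := by abel
      have h6 : ‖(n : ℂ) • l‖ = n * ‖l‖ := norm_nsm n l
      calc ‖Λ j ((T n).q (c j)) (s.g x)‖ = ‖((T n).q (s.g x) - (n : ℂ) • l) + (n : ℂ) • l -
        ((T n).q (s.g x) - Λ j ((T n).q (c j)) (s.g x))‖ := by rw [← h5]
        _ ≤ ‖((T n).q (s.g x) - (n : ℂ) • l) + (n : ℂ) • l‖ +
          ‖(T n).q (s.g x) - Λ j ((T n).q (c j)) (s.g x)‖ := norm_sub_le _ _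
        _ ≤ ‖(T n).q (s.g x) - (n : ℂ) • l‖ + ‖(n : ℂ) • l‖ +
          ‖(T n).q (s.g x) - Λ j ((T n).q (c j)) (s.g x)‖ := by
            gcongr
            exact norm_add_le _ _
        _ = _ := by rw [h6]
    have h5 : K * ‖Λ j ((T n).q (c j)) (s.g x)‖ ≤ K * (1 * n + B2 + n * ‖l‖ +
        (1 / (2 * K) * ‖(T n).q (c j)‖ + B1)) := by
      gcongr
      linarith
    have h6 : K * (1 * n + B2 + n * ‖l‖ + (1 / (2 * K) * ‖(T n).q (c j)‖ + B1)) =
        K * (n + B2 + n * ‖l‖ + B1) + ‖(T n).q (c j)‖ / 2 := by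
      field_simp
      ring
    have h7 : ‖(T n).q (c j)‖ ≤ 2 * (K * (n + B2 + n * ‖l‖ + B1)) := by linarith
    refine h7.trans ?_
    have hn0 : (0 : ℝ) ≤ n := Nat.cast_nonneg _
    have h8 : n + B2 + n * ‖l‖ + B1 ≤ (‖l‖ + 1 + |B2| + |B1|) * n + (‖l‖ + 1 + |B2| + |B1|) := by
      nlinarith [le_abs_self B1, le_abs_self B2, norm_nonneg l, abs_nonneg B1, abs_nonneg B2,
        mul_nonneg (abs_nonneg B1) hn0, mul_nonneg (abs_nonneg B2) hn0]
    calc 2 * (K * (n + B2 + n * ‖l‖ + B1))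
        ≤ 2 * (K * ((‖l‖ + 1 + |B2| + |B1|) * n + (‖l‖ + 1 + |B2| + |B1|))) := by gcongr
      _ = _ := by ring
  have hG3 : ∀ z ∈ ball x (e / 3), GoodK (fun n => Λ j ((T n).q (c j)) (s.g z))
      (s.A z *ᵥ Λ i w z) := by
    intro z hz ε hε
    obtain ⟨B1, hB1⟩ := hlast j (ε / (2 * (M' + 1))) (by positivity)
    obtain ⟨B2, hB2⟩ := hG2 z hz (ε / 2) (by positivity)
    refine ⟨ε + B1 + B2, fun n => ?_⟩
    have h1 := hB1 (T n) (hTN n) (s.g z) (hej (hsub hz))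
    have h2 := hB2 n
    have h3 : ‖Λ j ((T n).q (c j)) (s.g z) - (n : ℂ) • (s.A z *ᵥ Λ i w z)‖ ≤
        ‖(T n).q (s.g z) - Λ j ((T n).q (c j)) (s.g z)‖ +
          ‖(T n).q (s.g z) - (n : ℂ) • (s.A z *ᵥ Λ i w z)‖ := by
      rw [norm_sub_rev ((T n).q (s.g z)) (Λ j ((T n).q (c j)) (s.g z))]
      simpa using norm_add_le (Λ j ((T n).q (c j)) (s.g z) - (T n).q (s.g z))
        ((T n).q (s.g z) - (n : ℂ) • (s.A z *ᵥ Λ i w z))
    have h4 : ε / (2 * (M' + 1)) * ‖(T n).q (c j)‖ ≤ ε / 2 * n + ε / 2 := by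
      have h5 : ε / (2 * (M' + 1)) * ‖(T n).q (c j)‖ ≤
          ε / (2 * (M' + 1)) * ((M' + 1) * (n + 1)) := by
        gcongr
        have := hM' n
        have hn0 : (0 : ℝ) ≤ n := Nat.cast_nonneg _
        nlinarith
      have h6 : ε / (2 * (M' + 1)) * ((M' + 1) * (n + 1)) = ε / 2 * n + ε / 2 := by
        field_simp
      linarith
    change ‖Λ j ((T n).q (c j)) (s.g z) - (n : ℂ) • (s.A z *ᵥ Λ i w z)‖ ≤ _
    change ‖(T n).q (s.g z) - (n : ℂ) • (s.A z *ᵥ Λ i w z)‖ ≤ _ at h2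
    linarith
  -- a convergent subsequence of `v n / n`
  have hbdd : ∀ n : ℕ, ((n : ℂ))⁻¹ • (T n).q (c j) ∈ closedBall (0 : Cn k) (2 * M') := by
    intro n
    rw [mem_closedBall_zero_iff, norm_smul, norm_inv, Complex.norm_natCast]
    rcases Nat.eq_zero_or_pos n with h0 | h0
    · rw [h0, Nat.cast_zero, _root_.inv_zero, zero_mul]
      positivity
    · have h1 : (1 : ℝ) ≤ n := by exact_mod_cast h0
      rw [inv_mul_le_iff₀ (by linarith)]
      have := hM' n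
      nlinarith
  obtain ⟨w', -, φ, hφ, hlim⟩ := tendsto_subseq_of_bounded isBounded_closedBall hbdd
  refine ⟨w', fun z hz => ?_⟩
  have hz3 : s.g z ∈ ball (c j) 3 := hej (hsub hz)
  have h1 := ((hG3 z hz).tendsto).comp hφ.tendsto_atTop
  have h2 : Tendsto (fun n => Λ j (((φ n : ℂ))⁻¹ • (T (φ n)).q (c j)) (s.g z)) atTop
      (𝓝 (Λ j w' (s.g z))) := by
    rw [tendsto_iff_norm_sub_tendsto_zero] at hlim ⊢
    have h3 := hlim.const_mul K
    rw [mul_zero] at h3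
    refine squeeze_zero (fun n => norm_nonneg _) (fun n => ?_) h3
    rw [← hsub' j _ _ _ hz3]
    exact (hbd j _ _ hz3).2
  refine tendsto_nhds_unique (h1.congr fun n => ?_) h2
  have h3 := hsm j ((φ n : ℝ)⁻¹) ((T (φ n)).q (c j)) (s.g z) hz3
  have h4 : (((φ n : ℝ)⁻¹ : ℝ) : ℂ) = ((φ n : ℂ))⁻¹ := by
    push_cast
    rfl
  rw [h4] at h3
  rw [h3]
  rfl

end Pool.Agent.Helper90.RK
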