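import Pool.Agent.Helper45.RK.GoalsG
import Pool.Agent.Helper19.Lin.IDT

/-! Packet RK PGK: the maps on the ball of radius `4` form a local group. -/

open Complex Metric Set Filter Topology
open scoped ContDiff ComplexConjugate Matrix ComplexOrder

namespace Pool.Agent.Helper90.RK

open Pool.Agent.Helper95.Lin Pool.Agent.Helper10.SP Pool.Agent.Helper95.RK Pool.Agent.Helper45.SP
open Pool.Agent.Helper45.RK

variable {b k N : ℕ}

theorem ball_sub_Bd {c : Fin N → Cn b} {r R : ℝ} (h : r ≤ R) (i : Fin N) :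
    ball (c i) r ⊆ Bd c R := fun _ hz => mem_iUnion.2 ⟨i, ball_subset_ball h hz⟩

theorem Rge8 {c : Fin N → Cn b} {R : ℝ} {P : Set (Cn b) → TriK b k → Prop} {Φ : Cn b → ℝ}
    {Hf : Cn b → Matrix (Fin k) (Fin k) ℂ} {C : ℝ}
    (h : AFolK c R P Φ Hf C) : 8 ≤ R := by
  have := h.Rge
  have := h.Cge
  linarith

/-- A nontrivial map on the ball is nontrivial on the smaller ball. -/
theorem nontriv {z₀ : Cn b} {g : Cn b → Cn b} {r ρ : ℝ} (hρ : 0 < ρ) (hρr : ρ ≤ r)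
    (hg : DifferentiableOn ℂ g (ball z₀ r)) (h : ∀ z ∈ ball z₀ ρ, g z = z) :
    ∀ z ∈ ball z₀ r, g z = z := by
  intro z hz
  have := Pool.Agent.Helper19.Lin.idt (ball z₀ r) isOpen_ball (convex_ball z₀ r).isPreconnected
    (fun w => g w - w) (hg.sub differentiableOn_id) z₀ (mem_ball_self (hρ.trans_le hρr)) (by
      filter_upwards [ball_mem_nhds z₀ hρ] with w hw
      rw [h w hw, sub_self]) z hz
  exact sub_eq_zero.1 this

theorem pgk_fin {c : Fin N → Cn b} {R : ℝ} {P : Set (Cn b) → TriK b k → Prop} {Φ : Cn b → ℝ}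
    {Hf : Cn b → Matrix (Fin k) (Fin k) ℂ} {C : ℝ} (h : AFolK c R P Φ Hf C) (i : Fin N) :
    ∀ R' : ℝ, ∃ η > 0, ∀ t ∈ {t | BigK c P i t}, Near (c i) (4 / 2) t.g η → ‖t.β (c i)‖ ≤ R' →
    ∀ z ∈ ball (c i) 4, t.g z = z := by
  intro R'
  by_contra hcon
  push Not at hcon
  have step : ∀ η : {x : ℝ // 0 < x}, ∃ p : TriK b k × {x : ℝ // 0 < x}, BigK c P i p.1 ∧
      Near (c i) (4 / 2) p.1.g η ∧ ‖p.1.β (c i)‖ ≤ R' ∧ (p.2 : ℝ) ≤ η ∧
      ∃ z ∈ ball (c i) (4 / 2), (p.2 : ℝ) < ‖p.1.g z - z‖ := by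
    rintro ⟨η, hη⟩
    obtain ⟨t, ht, hn, hβ, z, hz, hne⟩ := hcon η hη
    have hg := (h.holo _ _ ht.1).2.2.1.1
    have h1 : ∃ w ∈ ball (c i) (4 / 2), t.g w ≠ w := by
      by_contra hall
      push Not at hall
      exact hne (nontriv (by norm_num) (by norm_num) hg hall z hz)
    obtain ⟨w, hw, hwne⟩ := h1
    have hpos : 0 < ‖t.g w - w‖ := norm_pos_iff.2 (sub_ne_zero.2 hwne)
    refine ⟨⟨t, ⟨min η (‖t.g w - w‖ / 2), by positivity⟩⟩, ht, hn, hβ, min_le_left _ _, w, hw, ?_⟩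
    exact (min_le_right _ _).trans_lt (by linarith)
  choose f hf using step
  let e : ℕ → {x : ℝ // 0 < x} := fun n => Nat.rec ⟨1, one_pos⟩ (fun _ x => (f x).2) n
  have he : ∀ n, e (n + 1) = (f (e n)).2 := fun n => rfl
  have hanti : Antitone fun n => (e n).1 := by
    apply antitone_nat_of_succ_le
    intro n
    rw [he]
    exact (hf (e n)).2.2.2.1
  obtain ⟨p, l, hkl, hEq⟩ := h.fin i R' (fun n => (f (e n)).1) fun n =>
    ⟨(hf (e n)).1, (hf (e n)).2.2.1⟩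
  have key : ∀ p l : ℕ, p < l → (f (e p)).1.EqOn (f (e l)).1 (ball (c i) 4) → False := by
    intro p l hkl hEq
    obtain ⟨z, hz, hlt⟩ := (hf (e p)).2.2.2.2
    have h1 := (hf (e l)).2.1 z hz
    have h2 : (e l).1 ≤ (e (p + 1)).1 := hanti hkl
    rw [he] at h2
    have h3 := (hEq z (ball_subset_ball (by norm_num) hz)).1
    rw [h3] at hlt
    linarith
  rcases lt_or_gt_of_ne hkl with h1 | h1
  · exact key p l h1 hEq
  · exact key l p h1 fun z hz => ⟨(hEq z hz).1.symm, (hEq z hz).2.1.symm, (hEq z hz).2.2.symm⟩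

/-- **Packet PGK.** -/
theorem pgk (hH : S_HFA2) : S_PGK := by
  intro b k N c R P Φ Hf C h i
  have hR := Rge8 h
  have hC := h.Cge
  have hsub4 : ball (c i) 4 ⊆ Bd c R := ball_sub_Bd (by linarith) i
  have hci2 : c i ∈ ball (c i) 2 := mem_ball_self (by norm_num)
  have hci4 : c i ∈ ball (c i) 4 := mem_ball_self (by norm_num)
  have hciB : c i ∈ Bd c 2 := ball_sub_Bd le_rfl i hci2
  refine ⟨⟨by norm_num, ?_, ?_, ?_, ?_, ?_, ?_⟩, ?_, ?_, ?_, pgk_fin h i⟩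
  · exact fun t ht => (h.holo _ _ ht.1).2.2.1
  · exact fun t ht z hz => ((h.holo _ _ ht.1).2.2.2 z hz).2
  · refine ⟨(∑ j, ‖c j‖) + 2 + C * 8, ?_⟩
    rintro t ⟨htP, z₁, hz₁, hz₁B⟩ z hz
    obtain ⟨j, hj⟩ := mem_iUnion.1 hz₁B
    have h1 : ‖t.g z₁‖ ≤ (∑ j, ‖c j‖) + 2 := by
      have h2 : ‖t.g z₁ - c j‖ < 2 := by simpa [dist_eq_norm] using hj
      have h3 : ‖c j‖ ≤ ∑ j, ‖c j‖ :=
        Finset.single_le_sum (f := fun j => ‖c j‖) (fun _ _ => norm_nonneg _) (Finset.mem_univ j)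
      calc ‖t.g z₁‖ = ‖(t.g z₁ - c j) + c j‖ := by congr 1; abel
        _ ≤ ‖t.g z₁ - c j‖ + ‖c j‖ := norm_add_le _ _
        _ ≤ _ := by linarith
    have hz₁4 : z₁ ∈ ball (c i) 4 := ball_subset_ball (by norm_num) hz₁
    have h4 := h.lip i t ⟨htP, z₁, hz₁, hz₁B⟩ z hz z₁ hz₁4
    have h5 : ‖z - z₁‖ ≤ 8 := by
      have e1 : ‖z - c i‖ < 4 := by simpa [dist_eq_norm] using hz
      have e2 : ‖z₁ - c i‖ < 2 := by simpa [dist_eq_norm] using hz₁
      calc ‖z - z₁‖ = ‖(z - c i) - (z₁ - c i)‖ := by congr 1; abel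
        _ ≤ ‖z - c i‖ + ‖z₁ - c i‖ := norm_sub_le _ _
        _ ≤ 8 := by linarith
    calc ‖t.g z‖ = ‖t.g z₁ + (t.g z - t.g z₁)‖ := by congr 1; abel
      _ ≤ ‖t.g z₁‖ + ‖t.g z - t.g z₁‖ := norm_add_le _ _
      _ ≤ (∑ j, ‖c j‖) + 2 + C * ‖z - z₁‖ := add_le_add h1 h4
      _ ≤ _ := by gcongr
  · exact ⟨TriK.one, ⟨h.one _ isOpen_ball hsub4, c i, hci2, hciB⟩, fun z _ => ⟨rfl, rfl, rfl⟩⟩
  · refine ⟨1 / 4, by norm_num, ?_⟩
    intro t ht s hs hnt hns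
    have h42 : (4 / 2 : ℝ) = 2 := by norm_num
    rw [h42] at hnt hns
    have hmap : MapsTo s.g (ball (c i) 1) (ball (c i) 2) := by
      intro z hz
      have e1 : ‖z - c i‖ < 1 := by simpa [dist_eq_norm] using hz
      have e2 := hns z (ball_subset_ball (by norm_num) hz)
      rw [mem_ball, dist_eq_norm]
      calc ‖s.g z - c i‖ = ‖(s.g z - z) + (z - c i)‖ := by congr 1; abel
        _ ≤ ‖s.g z - z‖ + ‖z - c i‖ := norm_add_le _ _
        _ < 2 := by linarith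
    have hP : P (ball (c i) 1) (t.comp s) :=
      h.comp _ _ _ _ _ ht.1 hs.1 isOpen_ball (ball_subset_ball (by norm_num))
        (hmap.mono_right (ball_subset_ball (by norm_num)))
    have hc1 : c i ∈ ball (c i) 1 := mem_ball_self (by norm_num)
    have hval : (t.comp s).g (c i) ∈ Bd c 2 := by
      apply ball_sub_Bd le_rfl i
      have e1 := hns (c i) hci2
      have e2 := hnt (s.g (c i)) (hmap hc1)
      rw [mem_ball, dist_eq_norm]
      change ‖t.g (s.g (c i)) - c i‖ < 2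
      calc ‖t.g (s.g (c i)) - c i‖ = ‖(t.g (s.g (c i)) - s.g (c i)) + (s.g (c i) - c i)‖ := by
            congr 1; abel
        _ ≤ ‖t.g (s.g (c i)) - s.g (c i)‖ + ‖s.g (c i) - c i‖ := norm_add_le _ _
        _ < 2 := by linarith
    obtain ⟨u, U', hu, hU'o, hcU', hU'sub, hEq⟩ := h.ext i (c i) hci2 _ _ hP hc1 hval
    refine ⟨u, ⟨hu, c i, hci2, ?_⟩, ?_⟩
    · rw [(hEq _ hcU').1]
      exact hval
    · obtain ⟨d, hd, hdU⟩ := Metric.isOpen_iff.1 hU'o _ hcU'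
      exact ⟨d, hd, fun z hz => hEq z (hdU hz)⟩
  · refine ⟨1 / 4, by norm_num, ?_⟩
    intro t ht hnt
    have h42 : (4 / 2 : ℝ) = 2 := by norm_num
    rw [h42] at hnt
    obtain ⟨s, U', U'', hsP, hyU', hU''o, hcU'', hU''sub, hmap, hone⟩ :=
      h.inv _ _ ht.1 (c i) hci4
    have hy2 : t.g (c i) ∈ ball (c i) 2 := by
      rw [mem_ball, dist_eq_norm]
      linarith [hnt (c i) hci2]
    have hsy : s.g (t.g (c i)) = c i := (hone _ hcU'').1
    obtain ⟨u, U3, hu, hU3o, hyU3, hU3sub, hEq⟩ := h.ext i (t.g (c i)) hy2 U' s hsP hyU' (by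
      rw [hsy]
      exact hciB)
    refine ⟨u, ⟨hu, t.g (c i), hy2, ?_⟩, ?_⟩
    · rw [(hEq _ hyU3).1, hsy]
      exact hciB
    · have hcont : ContinuousAt t.g (c i) :=
        ((h.holo _ _ ht.1).2.2.1.1.continuousOn).continuousAt (isOpen_ball.mem_nhds hci4)
      have h1 : ∀ᶠ z in 𝓝 (c i), t.g z ∈ U3 := hcont.eventually (hU3o.mem_nhds hyU3)
      have h2 : ∀ᶠ z in 𝓝 (c i), z ∈ U'' := hU''o.mem_nhds hcU''
      obtain ⟨d, hd, hdU⟩ := Metric.eventually_nhds_iff_ball.1 (h1.and h2)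
      refine ⟨d, hd, fun z hz => ?_⟩
      obtain ⟨e1, e2⟩ := hdU z hz
      obtain ⟨q1, q2, q3⟩ := hEq _ e1
      have hone' := hone z e2
      simp only [TriK.comp] at hone' ⊢
      rw [q1, q2, q3]
      exact hone'
  · exact ⟨C, hC, fun t ht z hz => h.abd i t ht z hz⟩
  · have hopen : IsOpen (Bd c R) := isOpen_iUnion fun _ => isOpen_ball
    have hsub2 : closedBall (c i) 2 ⊆ Bd c R :=
      (closedBall_subset_ball (by linarith : (2 : ℝ) < R)).trans (ball_sub_Bd le_rfl i)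
    obtain ⟨η, hη, C', hC', hmain⟩ := hH (c i) (Bd c R) hopen hsub2 Hf h.smH h.posH C
    refine ⟨η, hη, C', hC', ?_⟩
    intro t ht s hs hnear ε hε hMB z hz
    have h42 : (4 / 2 : ℝ) = 2 := by norm_num
    rw [h42] at hnear
    have h24 : ball (c i) 2 ⊆ ball (c i) 4 := ball_subset_ball (by norm_num)
    obtain ⟨-, -, ⟨hg, hAh, -⟩, hval⟩ := h.holo _ _ ht.1
    exact hmain t.g t.A (hg.mono h24) (fun i' j => (hAh i' j).mono h24)
      (fun w hw => ⟨(hval w (h24 hw)).2, (h.abd i t ht w (h24 hw)).1⟩)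
      (fun w hw => (hval w (h24 hw)).1) (fun w hw => h.herm _ _ ht.1 w (h24 hw)) s hs hnear ε hε
      hMB z hz
  · exact ⟨C, by linarith, fun t ht z hz => h.bgr i t ht z hz (c i) hci4⟩

end Pool.Agent.Helper90.RK
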