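import Pool.Agent.Helper45.RK.GoalsJ

/-! Packet RK ROOTK: the linear parts of the elements with trivial base map have bounded order. -/

open Complex Metric Set Filter Topology
open scoped ContDiff ComplexConjugate Matrix ComplexOrder

namespace Pool.Agent.Helper90.RK

open Pool.Agent.Helper95.Lin Pool.Agent.Helper10.SP Pool.Agent.Helper95.RK Pool.Agent.Helper45.SP
open Pool.Agent.Helper45.RK

/-- **Packet ROOTK.** -/
theorem rootk (hG : S_FIBGK) (hB : S_AFB) (hA1 : S_A1K) (hX : S_FIXG) : S_ROOTK := by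
  intro b k N c R P Φ Hf C hA hD
  have key : ∀ i : Fin N, ∃ L : ℕ, 1 ≤ L ∧ ∀ t, FixK c P i t → ∀ z ∈ ball (c i) 4,
      t.A z ^ L = 1 := by
    intro i
    have hc : c i ∈ ball (c i) 4 := mem_ball_self (by norm_num)
    have hc2 : c i ∈ ball (c i) 2 := mem_ball_self (by norm_num)
    have hfin := (hB (hG c R P Φ Hf C hA hD i (c i) hc2)).1
    obtain ⟨-, -, -, -, hpow⟩ := hX c R P Φ Hf C hA i
    set S := {M : Matrix (Fin k) (Fin k) ℂ | ∃ v, (M, v) ∈
      {p : Matrix (Fin k) (Fin k) ℂ × Cn k | ∃ t, FixK c P i t ∧ p = (t.A (c i), t.β (c i))}}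
      with hS
    refine ⟨hfin.toFinset.card.factorial, Nat.succ_le_of_lt (Nat.factorial_pos _), ?_⟩
    intro t ht z hz
    have hmem : ∀ p ∈ Finset.range (hfin.toFinset.card + 1), t.A (c i) ^ p ∈ hfin.toFinset := by
      intro p _
      rw [Set.Finite.mem_toFinset]
      obtain ⟨s, hs, hsA⟩ := hpow t ht p
      exact ⟨s.β (c i), s, hs, by rw [hsA (c i) hc]⟩
    have hdet : IsUnit (t.A (c i)) := by
      rw [Matrix.isUnit_iff_isUnit_det]
      exact ((hA.holo _ _ ht.1).2.2.2 (c i) hc).2.isUnit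
    obtain ⟨p, hp, q, hq, hpq, he⟩ := Finset.exists_ne_map_eq_of_card_lt_of_maps_to
      (by rw [Finset.card_range]; exact Nat.lt_succ_self _) hmem
    have main : ∀ p q : ℕ, p < q → q < hfin.toFinset.card + 1 → t.A (c i) ^ p = t.A (c i) ^ q →
        t.A (c i) ^ hfin.toFinset.card.factorial = 1 := by
      intro p q hpq hq he
      have h1 : t.A (c i) ^ (q - p) = 1 := by
        have h2 : t.A (c i) ^ p * t.A (c i) ^ (q - p) = t.A (c i) ^ p * 1 := by
          rw [← pow_add, Nat.add_sub_cancel' hpq.le, mul_one, ← he]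
        exact (hdet.pow p).mul_left_cancel h2
      obtain ⟨m, hm⟩ := Nat.dvd_factorial (m := q - p) (n := hfin.toFinset.card) (by omega)
        (by omega)
      rw [hm, pow_mul, h1, one_pow]
    have hone : t.A (c i) ^ hfin.toFinset.card.factorial = 1 := by
      rw [Finset.mem_range] at hp hq
      rcases lt_or_gt_of_ne hpq with h | h
      · exact main p q h hq he
      · exact main q p h hp he.symm
    obtain ⟨s, hs, hsA⟩ := hpow t ht hfin.toFinset.card.factorial
    have hs1 : s.A (c i) = 1 := by rw [hsA (c i) hc, hone]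
    rw [← hsA z hz]
    exact hA1 c R P Φ Hf C hA i s hs (c i) hc hs1 z hz
  choose L hL1 hL using key
  refine ⟨∏ i, L i, Finset.one_le_prod' fun i _ => hL1 i, ?_⟩
  intro i t ht z hz
  obtain ⟨m, hm⟩ := Finset.dvd_prod_of_mem L (Finset.mem_univ i)
  rw [hm, pow_mul, hL i t ht z hz, one_pow]

end Pool.Agent.Helper90.RK
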