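import Pool.Agent.Helper95.RK.GoalsC
import Pool.Agent.Helper95.RK.Basics
import Pool.Agent.Helper55.SP.AFFT
import Pool.Agent.Helper59.SP.WCH
import Pool.Agent.Helper16.Abund.Basic

/-! Packet RK TRSK: transition of special maps. -/

open Complex Metric Set Filter Topology MeasureTheory
open scoped ContDiff ComplexConjugate ComplexOrder Manifold Matrix

namespace Pool.Agent.Helper90.RK

open Pool.Agent.Helper95.Lin Pool.Agent.Helper16.Abund Pool.Agent.Helper92.Orb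
open Pool.Agent.Helper10.SP Pool.Agent.Helper95.RK

universe u v

variable {b k : ℕ}

theorem hermi_ef (A : Matrix (Fin (b + k)) (Fin (b + k)) ℂ) (i j : Fin k) :
    hermi A (ef b i) (ef b j) = fbl A i j := by
  unfold hermi
  rw [Finset.sum_eq_single (Fin.natAdd b i), Finset.sum_eq_single (Fin.natAdd b j)]
  · simp [ef, fbl]
  · intro l _ hl
    have : ef b j l = 0 := by unfold ef; rw [Pi.single_eq_of_ne hl]
    rw [this]; simp
  · intro h; exact absurd (Finset.mem_univ _) h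
  · intro l _ hl
    have : ef b i l = 0 := by unfold ef; rw [Pi.single_eq_of_ne hl]
    rw [this]; simp
  · intro h; exact absurd (Finset.mem_univ _) h

theorem hermi_fib (A : Matrix (Fin (b + k)) (Fin (b + k)) ℂ) {u w : Cn (b + k)}
    (hu : base u = 0) (hw : base w = 0) : hermi A u w = hermi (fbl A) (fib u) (fib w) := by
  have h1 : ∀ a : Fin b, u (Fin.castAdd k a) = 0 := fun a => congrFun hu a
  have h2 : ∀ a : Fin b, w (Fin.castAdd k a) = 0 := fun a => congrFun hw a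
  unfold hermi
  rw [Fin.sum_univ_add]
  have h3 : ∀ a : Fin b, ∑ j, A (Fin.castAdd k a) j * u (Fin.castAdd k a) * conj (w j) = 0 := by
    intro a
    refine Finset.sum_eq_zero fun j _ => ?_
    rw [h1]; ring
  rw [Finset.sum_eq_zero fun a _ => h3 a, zero_add]
  refine Finset.sum_congr rfl fun i _ => ?_
  rw [Fin.sum_univ_add, Finset.sum_eq_zero fun a _ => by rw [h2]; simp, zero_add]
  rfl

/-- The differential of `τ` maps fibre vectors to fibre vectors. -/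
theorem base_zero {U U' : Set (Cn b)} (hU : IsOpen U) (hU' : IsOpen U')
    {Ψ₁ Ψ₂ : Cn b → ℝ} (hΨ₁ : ContDiffOn ℝ ∞ Ψ₁ U) (hΨ₂ : ContDiffOn ℝ ∞ Ψ₂ U')
    (hpos : ∀ z ∈ U', ∀ e, e ≠ 0 → 0 < lev Ψ₂ z e) {τ : Cn (b + k) → Cn (b + k)}
    {W : Set (Cn (b + k))} (hW : IsOpen W) (hWU : ∀ y ∈ W, base y ∈ U)
    (hτ : DifferentiableOn ℂ τ W) (hmaps' : ∀ y ∈ W, base (τ y) ∈ U')
    (hdet0 : ∀ y ∈ W, (fderiv ℂ τ y).det ≠ 0)
    (hpot : ∀ y ∈ W, Ψ₁ (base y) = Ψ₂ (base (τ y)) + Real.log (‖(fderiv ℂ τ y).det‖ ^ 2))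
    {x : Cn (b + k)} (hx : x ∈ W) {e : Cn (b + k)} (he : base e = 0) :
    base (fderiv ℂ τ x e) = 0 := by
  obtain ⟨hC, hL⟩ := Pool.Agent.Helper59.SP.wch
  have hτa : DifferentiableAt ℂ τ x := hτ.differentiableAt (hW.mem_nhds hx)
  have hD : DifferentiableOn ℂ (fderiv ℂ τ) W := holo_fderiv hW hτ
  have h1 : lev (Ψ₁ ∘ (base : Cn (b + k) → Cn b)) x e = 0 := by
    have hb : DifferentiableOn ℂ (base : Cn (b + k) → Cn b) W :=
      (bsL b k).differentiable.differentiableOn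
    have := ((hC U W hU hW base hb (fun y hy => hWU y hy)).2 Ψ₁ hΨ₁ x hx).1 e
    rw [this]
    have h2 : fderiv ℂ (base : Cn (b + k) → Cn b) x e = 0 := by
      have h3 : HasFDerivAt (base : Cn (b + k) → Cn b) (bsL b k) x := (bsL b k).hasFDerivAt
      rw [h3.fderiv, bsL_apply, he]
    rw [h2, Pool.Agent.Helper55.SP.lev_dir_zero]
  have hbτ : DifferentiableOn ℂ (fun y => base (τ y)) W :=
    (bsL b k).differentiable.comp_differentiableOn hτ
  have hmaps : MapsTo (fun y => base (τ y)) W U' := fun y hy => hmaps' y hy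
  have h4 := ((hC U' W hU' hW (fun y => base (τ y)) hbτ hmaps).2 Ψ₂ hΨ₂ x hx).1 e
  have h5 : fderiv ℂ (fun y => base (τ y)) x e = base (fderiv ℂ τ x e) := by
    have h6 : HasFDerivAt (fun y => base (τ y)) ((bsL b k).comp (fderiv ℂ τ x)) x :=
      (bsL b k).hasFDerivAt.comp x hτa.hasFDerivAt
    rw [h6.fderiv]
    rfl
  rw [h5] at h4
  have hdet : DifferentiableOn ℂ (fun y => (fderiv ℂ τ y).det) W := by
    have h7 : ∀ y, (fderiv ℂ τ y).det =
        (Matrix.of fun i j => fderiv ℂ τ y (Pi.single j 1) i).det := by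
      intro y
      have h8 : (fderiv ℂ τ y).det = (LinearMap.toMatrix'
        ((fderiv ℂ τ y) : Cn (b + k) →ₗ[ℂ] Cn (b + k))).det := (LinearMap.det_toMatrix' _).symm
      rw [h8]
      congr 1
    have h9 : (fun y => (fderiv ℂ τ y).det) = fun y =>
        (Matrix.of fun i j => fderiv ℂ τ y (Pi.single j 1) i).det := funext h7
    rw [h9]
    simp only [Matrix.det_apply']
    refine DifferentiableOn.fun_sum fun σ _ => ?_
    refine DifferentiableOn.const_mul ?_ _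
    simp only [Matrix.of_apply]
    have h11 : ∀ i ∈ (Finset.univ : Finset (Fin (b + k))),
        DifferentiableOn ℂ (fun y => fderiv ℂ τ y (Pi.single i 1) (σ i)) W := by
      intro i _
      have h10 : DifferentiableOn ℂ (fun y => fderiv ℂ τ y (Pi.single i 1)) W :=
        hD.clm_apply (differentiableOn_const _)
      exact differentiableOn_pi.1 h10 (σ i)
    exact Pool.Agent.Helper55.SP.diffOn_prod Finset.univ _ h11
  obtain ⟨hLs, hLz⟩ := hL W hW (fun y => (fderiv ℂ τ y).det) hdet hdet0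
  have h11 : (Ψ₁ ∘ (base : Cn (b + k) → Cn b)) =ᶠ[𝓝 x] fun y =>
      (Ψ₂ ∘ fun y => base (τ y)) y + Real.log (‖(fderiv ℂ τ y).det‖ ^ 2) := by
    filter_upwards [hW.mem_nhds hx] with y hy
    exact hpot y hy
  rw [Pool.Agent.Helper9.Lin.lev_congr h11] at h1
  have h12 : ContDiffOn ℝ ∞ (Ψ₂ ∘ fun y => base (τ y)) W :=
    hΨ₂.comp (holo_contDiffOn_real hW hbτ) hmaps
  rw [Pool.Agent.Helper55.SP.lev_add hW h12 hLs hx, (hLz x hx).1 e, h4, add_zero] at h1
  by_contra hne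
  exact absurd h1 (hpos _ (hmaps' x hx) _ hne).ne'

theorem pm_congr {M : Type v} [TopologicalSpace M] [ChartedSpace (Fin (b + k) → ℂ) M]
    {q : M → Matrix (Fin (b + k)) (Fin (b + k)) ℂ} {ψ ψ' : Cn (b + k) → M} {x : Cn (b + k)}
    (h : ψ =ᶠ[𝓝 x] ψ') : pm (b + k) q ψ x = pm (b + k) q ψ' x := by
  have h1 : ψ x = ψ' x := h.self_of_nhds
  have h2 : ∀ u, dvec (b + k) ψ x u = dvec (b + k) ψ' x u := by
    intro u
    unfold dvec dmap
    rw [h.mfderiv_eq]
  unfold pm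
  simp only [h2, h1]

theorem trsk (hPARB : S_PARBK.{u, v}) (hPMB : S_PMB.{u, v}) (hAFFT : S_AFFTK) :
    S_TRSK.{u, v} := by
  intro b k G M _ _ _ _ _ _ h q v hD hF U U' Δ Δ' ψ ψ' Ψ Ψ' Hf Hf' hU hU' hΔ hΔ' hS hS' γ
    x hx x' hx' hxx
  obtain ⟨hP1, hP2, hP3, -, -⟩ := hPARB hD
  obtain ⟨hM1, hM2⟩ := hPMB hD q hF.herm hF.inv
  obtain ⟨τ, A, W, hA, hW, hxA, hxW, hAV, hWV, hτ, hinj, hmaps, hτx, hdet, hiff⟩ :=
    hP3 _ _ ψ ψ' hS.par hS'.par γ x hx x' hx' hxx
  obtain ⟨ρ, hρ, hball⟩ := Metric.isOpen_iff.1 hA x hxA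
  have hsub : prodK (ball (base x) ρ) (ball (fib x) ρ) ⊆ A := by
    rw [← ball_prodK]; exact hball
  have hmemp : ∀ z ∈ ball (base x) ρ, ∀ w ∈ ball (fib x) ρ,
      ptK z w ∈ prodK (ball (base x) ρ) (ball (fib x) ρ) := by
    intro z hz w hw
    refine ⟨?_, ?_⟩
    · rw [base_ptK]; exact hz
    · rw [fib_ptK]; exact hw
  have hcl : fib x ∈ ball (fib x) ρ := mem_ball_self hρ
  have hcb : base x ∈ ball (base x) ρ := mem_ball_self hρ
  have hUsub : ball (base x) ρ ⊆ U := by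
    intro z hz
    have := (hAV (hsub (hmemp z hz _ hcl))).1
    rwa [base_ptK] at this
  have hΔsub : ball (fib x) ρ ⊆ Δ := by
    intro w hw
    have := (hAV (hsub (hmemp _ hcb w hw))).2
    rwa [fib_ptK] at this
  have hτV : ∀ y ∈ A, τ y ∈ prodK U' Δ' := fun y hy => hWV (hmaps hy)
  have heq : ∀ y ∈ A, γ • ψ y = ψ' (τ y) := fun y hy => (hiff y hy (τ y) (hmaps hy)).2 rfl
  have hev : ∀ y ∈ A, (fun z => γ • ψ z) =ᶠ[𝓝 y] (ψ' ∘ τ) := by
    intro y hy
    filter_upwards [hA.mem_nhds hy] with z hz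
    exact heq z hz
  -- the potentials
  have hpot : ∀ y ∈ A, Ψ (base y) = Ψ' (base (τ y)) + Real.log (‖(fderiv ℂ τ y).det‖ ^ 2) := by
    intro y hy
    have e1 := (hP2 γ _ ψ hS.par).2 y (hAV hy)
    have e2 := ((hP1 _ A ψ' τ hS'.par hA hτ hτV hdet).2 y hy).2
    have e3 : lpot (b + k) v (fun z => γ • ψ z) y = lpot (b + k) v (ψ' ∘ τ) y := by
      unfold lpot
      rw [jac_congr (hev y hy)]
      congr 3
      exact heq y hy
    rw [e1, e2, hS.pot y (hAV hy), hS'.pot (τ y) (hτV y hy)] at e3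
    exact e3
  -- the leaf metrics
  have hbz : ∀ y ∈ A, ∀ i : Fin k, base (fderiv ℂ τ y (ef b i)) = 0 := by
    intro y hy i
    exact base_zero hU hU' hS.smP hS'.smP hS'.pos hA (fun z hz => (hAV hz).1) hτ
      (fun z hz => (hτV z hz).1) hdet hpot hy (base_ef i)
  have hherm : ∀ y ∈ A, Jfq τ y * Hf' (base (τ y)) * (Jfq τ y)ᴴ = Hf (base y) := by
    intro y hy
    have a1 := (hM1 _ ψ hS.par).2.2.2 γ y (hAV hy)
    have a2 := hM2 _ A ψ' τ hS'.par hA hτ hτV hdet y hy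
    rw [pm_congr (hev y hy)] at a1
    rw [a1] at a2
    have a3 := hS.leaf y (hAV hy)
    have a4 := hS'.leaf (τ y) (hτV y hy)
    unfold gm at a3 a4
    ext i j
    rw [← a3, ← hermi_ef, a2, hermi_fib _ (hbz y hy i) (hbz y hy j), a4]
    unfold hermi
    rw [Matrix.mul_assoc, Matrix.mul_apply]
    refine Finset.sum_congr rfl fun p _ => ?_
    rw [Matrix.mul_apply, Finset.mul_sum]
    refine Finset.sum_congr rfl fun r _ => ?_
    rw [Matrix.conjTranspose_apply]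
    unfold Jfq fib
    simp only [Matrix.of_apply, RCLike.star_def]
    ring
  obtain ⟨t, ht1, ht2, ht3⟩ := hAFFT (ball (base x) ρ) U' (fib x) ρ isOpen_ball hU' hρ
    Ψ Ψ' Hf Hf' (hS.smP.mono hUsub) hS'.smP hS'.pos (fun z hz => hS.posH z (hUsub hz)) hS'.posH τ
    (hτ.mono hsub) (fun y hy =>
      ⟨(hτV y (hsub hy)).1, hdet y (hsub hy), hpot y (hsub hy), hherm y (hsub hy)⟩)
  refine ⟨ρ, hρ, t, hUsub, hΔsub, ht1, ?_, ht2, ?_⟩
  · rw [← hτx]
    conv_lhs => rw [← ptK_base_fib x]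
    rw [ht3 _ hcb _ hcl]
    rfl
  · intro z hz w hw
    have hin := hsub (hmemp z hz w hw)
    have b1 := (hτV _ hin).2
    have b2 := heq _ hin
    rw [ht3 z hz w hw] at b1 b2
    rw [fib_ptK] at b1
    exact ⟨b1, b2⟩

end Pool.Agent.Helper90.RK
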